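import Pool.Agent.MP_a6a8af_gt.H97.Example

set_option autoImplicit false

open Set

namespace Pool.Agent.Results.MP_a6a8af_gt.NotInvariant

open Pool.Agent.MP_a6a8af_gt.H97

/-- Unicoherence: two closed connected sets that cover the space have connected intersection.
The empty set counts as connected. -/
def Unicoherent (Z : Type) [TopologicalSpace Z] : Prop :=
  ∀ P Q : Set Z, IsClosed P → IsClosed Q → IsPreconnected P → IsPreconnected Q → P ∪ Q = univ →
    IsPreconnected (P ∩ Q)

/-- Local homeomorphisms in the words of the problem. -/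
def LocHomeo {Z W : Type} [TopologicalSpace Z] [TopologicalSpace W] (g : Z → W) : Prop :=
  Continuous g ∧ ∀ z, ∃ U : Set Z, IsOpen U ∧ z ∈ U ∧ IsOpen (g '' U) ∧
    IsHomeomorph (imageFactorization g U)

theorem locHomeo_of {Z W : Type} [TopologicalSpace Z] [TopologicalSpace W] {g : Z → W}
    (hg : IsLocalHomeomorph g) : LocHomeo g := by
  refine ⟨hg.continuous, fun z => ?_⟩
  obtain ⟨e, hz, rfl⟩ := hg z
  have hU := e.open_source
  have hV : IsOpen (e '' e.source) := hg.isOpenMap _ hU
  refine ⟨e.source, hU, hz, hV, ?_, ?_, ?_, imageFactorization_surjective⟩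
  · exact (hg.continuous.comp continuous_subtype_val).subtype_mk _
  · exact (hg.isOpenMap.comp hU.isOpenMap_subtype_val).subtype_mk _
  · intro a b hab
    exact Subtype.ext (e.injOn a.2 b.2 (congrArg Subtype.val hab))

/-- A non-unicoherent locally connected continuum with a unicoherent image under a local
homeomorphism. -/
theorem result : ∃ (Z W : Type) (_ : MetricSpace Z) (_ : MetricSpace W) (g : Z → W),
    CompactSpace Z ∧ ConnectedSpace Z ∧ LocallyConnectedSpace Z ∧ ¬ Unicoherent Z ∧
    LocHomeo g ∧ Function.Surjective g ∧ ConnectedSpace W ∧ Unicoherent W := by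
  refine ⟨X, Y, inferInstance, inferInstance, f, inferInstance, inferInstance, inferInstance,
    fun h => not_isConnected_inter ⟨⟨_, ctr_mem⟩, h A B isClosed_A isClosed_B
      isConnected_A.isPreconnected isConnected_B.isPreconnected A_union_B⟩,
    locHomeo_of isLocalHomeomorph_f, surjective_f, inferInstance, ?_⟩
  intro P Q hP hQ hPc hQc hPQ
  rcases P.eq_empty_or_nonempty with rfl | h1
  · rw [empty_inter]; exact isPreconnected_empty
  rcases Q.eq_empty_or_nonempty with rfl | h2
  · rw [inter_empty]; exact isPreconnected_empty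
  exact (unicoherent_of_log log_Y hP hQ ⟨h1, hPc⟩ ⟨h2, hQc⟩ hPQ).isPreconnected

end Pool.Agent.Results.MP_a6a8af_gt.NotInvariant
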